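import Mathlib

/-!
# UC2, block Q7: general position of finitely many transversal points by small translations

`V` is a finite set of points, the point `v` lies on the hypersurfaces `Q v i = 0`, `i ∈ T v`, of the bodies
`i ∈ T v`, transversally, and `(T v).card` is the dimension; `Q v i` is of class C^1 on the open set `N v i`.
`W v i` is a closed set (the wall of the body `i`) such that in `N v i` the hypersurface `Q v i = 0` has points
outside `W v i` arbitrarily near to each of its points (for `i ∉ T v`: the complement of `W v i` is dense).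
Then there are arbitrarily small translations `τ i` of the bodies and points `x v` near `v` with
`Q v i (x v - τ i) = 0` for `i ∈ T v` (again transversally) and `x v - τ i ∉ W v i` for all `i`.
-/

open Filter Topology

namespace UC2

variable {X : Type*} [NormedAddCommGroup X] [NormedSpace ℝ X] [FiniteDimensional ℝ X]
variable {ι : Type} [DecidableEq ι]

/-- The gradients of the `Q i`, `i ∈ T`, at the points `x - τ i` are linearly independent. -/
def Indep (T : Finset ι) (Q : ι → X → ℝ) (τ : ι → X) (x : X) : Prop :=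
  ∀ c : ι → ℝ, ∑ i ∈ T, c i • fderiv ℝ (Q i) (x - τ i) = 0 → ∀ i ∈ T, c i = 0

omit [FiniteDimensional ℝ X] in
theorem indep_iff (T : Finset ι) (Q : ι → X → ℝ) (τ : ι → X) (x : X) :
    Indep T Q τ x ↔ LinearIndependent ℝ (fun i : T => fderiv ℝ (Q i) (x - τ i)) := by
  classical
  rw [Fintype.linearIndependent_iff]
  constructor
  · intro h g hg i
    have := h (fun j => if hj : j ∈ T then g ⟨j, hj⟩ else 0) (by
      rw [← Finset.sum_coe_sort T]
      rw [← hg]
      refine Finset.sum_congr rfl (fun j _ => ?_)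
      simp) i.1 i.2
    simpa using this
  · intro h c hc i hi
    rw [← Finset.sum_coe_sort T] at hc
    exact h (fun j => c j.1) hc ⟨i, hi⟩

omit [FiniteDimensional ℝ X] in
/-- Independence is an open condition. -/
theorem indep_eventually [Fintype ι] (T : Finset ι) (Q : ι → X → ℝ) (N : ι → Set X)
    (hN : ∀ i ∈ T, IsOpen (N i)) (hQ : ∀ i ∈ T, ContDiffOn ℝ 1 (Q i) (N i)) (τ : ι → X) (x : X)
    (hx : ∀ i ∈ T, x - τ i ∈ N i) (h : Indep T Q τ x) :
    ∀ᶠ p : (ι → X) × X in 𝓝 (τ, x), Indep T Q p.1 p.2 := by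
  have hopen : IsOpen {f : T → (X →L[ℝ] ℝ) | LinearIndependent ℝ f} :=
    isOpen_setOfPred_linearIndependent
  have hcont : ContinuousAt (fun p : (ι → X) × X => fun i : T => fderiv ℝ (Q i) (p.2 - p.1 i))
      (τ, x) := by
    refine continuousAt_pi.2 (fun i => ?_)
    have h1 : ContinuousAt (fderiv ℝ (Q i)) (x - τ i) :=
      ((hQ i.1 i.2).continuousOn_fderiv_of_isOpen (hN i.1 i.2) (by norm_num)).continuousAt
        ((hN i.1 i.2).mem_nhds (hx i.1 i.2))
    have h2 : ContinuousAt (fun p : (ι → X) × X => p.2 - p.1 i) (τ, x) :=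
      (continuous_snd.sub ((continuous_apply i.1).comp continuous_fst)).continuousAt
    exact ContinuousAt.comp (f := fun p : (ι → X) × X => p.2 - p.1 i)
      (g := fderiv ℝ (Q i)) h1 h2
  have hmem : (fun i : T => fderiv ℝ (Q i) (x - τ i)) ∈ {f : T → (X →L[ℝ] ℝ) |
      LinearIndependent ℝ f} := (indep_iff T Q τ x).1 h
  have := hcont.preimage_mem_nhds (hopen.mem_nhds hmem)
  filter_upwards [this] with p hp
  exact (indep_iff T Q p.1 p.2).2 hp

/-- The implicit solution when one body moves. -/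
theorem tr_implicit (T : Finset ι) (hT : T.card = Module.finrank ℝ X) (Q : ι → X → ℝ)
    (τ : ι → X) (x : X) (hQ : ∀ i ∈ T, ContDiffAt ℝ 1 (Q i) (x - τ i))
    (h0 : ∀ i ∈ T, Q i (x - τ i) = 0)
    (hind : Indep T Q τ x) (i0 : ι) :
    ∃ ψ : X → X, Tendsto ψ (𝓝 (τ i0)) (𝓝 x) ∧
      ∀ᶠ s in 𝓝 (τ i0), ∀ i ∈ T, Q i (ψ s - Function.update τ i0 s i) = 0 := by
  classical
  have : CompleteSpace X := FiniteDimensional.complete ℝ X
  let f : X × X → (T → ℝ) := fun p i => Q i (p.2 - Function.update τ i0 p.1 i)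
  have hfC : ContDiffAt ℝ 1 f (τ i0, x) := by
    refine contDiffAt_pi.2 (fun i => ?_)
    have hin : ContDiff ℝ 1 (fun p : X × X => p.2 - Function.update τ i0 p.1 i.1) := by
      refine contDiff_snd.sub ?_
      by_cases hi : i.1 = i0
      · have : (fun p : X × X => Function.update τ i0 p.1 i.1) = fun p => p.1 := by
          funext p; rw [hi]; simp
        rw [this]; exact contDiff_fst
      · have : (fun p : X × X => Function.update τ i0 p.1 i.1) = fun p => τ i.1 := by
          funext p; simp [Function.update_of_ne hi]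
        rw [this]; exact contDiff_const
    have hg : ContDiffAt ℝ 1 (Q i.1) ((fun p : X × X => p.2 - Function.update τ i0 p.1 i.1)
        (τ i0, x)) := by
      simpa using hQ i.1 i.2
    exact ContDiffAt.comp (τ i0, x) hg hin.contDiffAt
  have hf : HasStrictFDerivAt f (fderiv ℝ f (τ i0, x)) (τ i0, x) :=
    hfC.hasStrictFDerivAt (by norm_num)
  -- the partial derivative
  have hpart : ∀ u : X, ∀ i : T, (fderiv ℝ f (τ i0, x) ∘L .inr ℝ X X) u i
      = fderiv ℝ (Q i) (x - τ i) u := by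
    intro u i
    have h1 : HasFDerivAt (fun z : X => f (τ i0, z)) (fderiv ℝ f (τ i0, x) ∘L .inr ℝ X X) x := by
      have := hf.hasFDerivAt.comp x (hasFDerivAt_prodMk_right (𝕜 := ℝ) (τ i0) x)
      exact this
    have h2 : HasFDerivAt (fun z : X => f (τ i0, z) i) (fderiv ℝ (Q i) (x - τ i)) x := by
      have h3 : HasFDerivAt (Q i) (fderiv ℝ (Q i) (x - τ i)) (x - τ i) :=
        ((hQ i.1 i.2).differentiableAt (by norm_num)).hasFDerivAt
      have h4 : HasFDerivAt (fun z : X => z - τ i) (ContinuousLinearMap.id ℝ X) x :=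
        (hasFDerivAt_id x).sub_const _
      have h5 := h3.comp x h4
      have h6 : (fun z : X => f (τ i0, z) i) = (Q i) ∘ (fun z : X => z - τ i) := by
        funext z
        simp only [f, Function.comp, Function.update_eq_self]
      rw [h6]
      simpa using h5
    have h7 := (hasFDerivAt_pi'.1 h1) i
    have h8 := h7.unique h2
    have := congrArg (fun L : X →L[ℝ] ℝ => L u) h8
    simpa using this
  have hfin : Module.finrank ℝ (T → ℝ) = Module.finrank ℝ X := by
    rw [Module.finrank_fintype_fun_eq_card, Fintype.card_coe, hT]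
  have hsurj : Function.Surjective (fderiv ℝ f (τ i0, x) ∘L .inr ℝ X X) := by
    have hr : LinearMap.range ((fderiv ℝ f (τ i0, x) ∘L .inr ℝ X X) : X →ₗ[ℝ] (T → ℝ)) = ⊤ := by
      by_contra hne
      obtain ⟨φ, hφ, hφr⟩ := Submodule.exists_le_ker_of_lt_top _ (lt_top_iff_ne_top.2 hne)
      apply hφ
      have hval : ∀ g : T → ℝ, φ g = ∑ i, g i * φ (Pi.single i 1) := by
        intro g
        conv_lhs => rw [← Finset.univ_sum_single g]
        rw [map_sum]
        refine Finset.sum_congr rfl (fun i _ => ?_)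
        have : (Pi.single i (g i) : T → ℝ) = g i • Pi.single i (1 : ℝ) := by
          rw [← Pi.single_smul]; simp
        rw [this, map_smul, smul_eq_mul]
      have hz : ∑ i ∈ T, (if hi : i ∈ T then φ (Pi.single ⟨i, hi⟩ 1) else 0) •
          fderiv ℝ (Q i) (x - τ i) = 0 := by
        ext u
        have hu : φ ((fderiv ℝ f (τ i0, x) ∘L .inr ℝ X X) u) = 0 := by
          have := hφr (LinearMap.mem_range_self
            ((fderiv ℝ f (τ i0, x) ∘L .inr ℝ X X) : X →ₗ[ℝ] (T → ℝ)) u)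
          simpa using this
        rw [hval] at hu
        rw [← Finset.sum_coe_sort T]
        simp only [sum_apply, smul_apply, smul_eq_mul,
          zero_apply, Finset.coe_mem, dite_true, Subtype.coe_eta]
        rw [← hu]
        refine Finset.sum_congr rfl (fun i _ => ?_)
        rw [hpart u i]; ring
      have hc := hind _ hz
      ext i
      have := hc i.1 i.2
      simp only [i.2, dite_true, Subtype.coe_eta] at this
      simpa using this
    exact LinearMap.range_eq_top.1 hr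
  have hinj : Function.Injective (fderiv ℝ f (τ i0, x) ∘L .inr ℝ X X) := by
    have := (LinearMap.injective_iff_surjective_of_finrank_eq_finrank
      (f := ((fderiv ℝ f (τ i0, x) ∘L .inr ℝ X X) : X →ₗ[ℝ] (T → ℝ))) hfin.symm).2 hsurj
    exact this
  have hinv : (fderiv ℝ f (τ i0, x) ∘L .inr ℝ X X).IsInvertible := by
    let e : X ≃ₗ[ℝ] (T → ℝ) := LinearEquiv.ofBijective
      ((fderiv ℝ f (τ i0, x) ∘L .inr ℝ X X) : X →ₗ[ℝ] (T → ℝ)) ⟨hinj, hsurj⟩
    exact ⟨e.toContinuousLinearEquiv, by ext u; rfl⟩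
  refine ⟨hf.implicitFunctionOfProdDomain hinv, hf.tendsto_implicitFunctionOfProdDomain hinv, ?_⟩
  filter_upwards [hf.eventually_apply_implicitFunctionOfProdDomain hinv] with s hs
  intro i hi
  have h1 := congrFun hs ⟨i, hi⟩
  have h2 : f (τ i0, x) ⟨i, hi⟩ = 0 := by
    simp only [f, Function.update_eq_self]
    exact h0 i hi
  rw [h2] at h1
  exact h1

/-- A configuration: translations `τ` and points `x v` on the translated hypersurfaces, near the original ones,
off the walls of the pairs in `G`. -/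
structure Config {α : Type} [Fintype ι] (V : Finset α) (T : α → Finset ι) (Q : α → ι → X → ℝ)
    (W N : α → ι → Set X) (pt : α → X) (δ : ℝ) (G : Finset (α × ι)) (τ : ι → X) (x : α → X) :
    Prop where
  small : ∀ i, ‖τ i‖ < δ
  near : ∀ v ∈ V, dist (x v) (pt v) < δ
  zero : ∀ v ∈ V, ∀ i ∈ T v, Q v i (x v - τ i) = 0
  ind : ∀ v ∈ V, Indep (T v) (Q v) τ (x v)
  nbd : ∀ v ∈ V, ∀ i ∈ T v, x v - τ i ∈ N v i
  off : ∀ v ∈ V, ∀ i, (v, i) ∈ G → x v - τ i ∉ W v i

/-- One step: a further pair is moved off its wall. -/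
theorem config_step {α : Type} [DecidableEq α] [Fintype ι] (V : Finset α) (T : α → Finset ι)
    (hT : ∀ v ∈ V, (T v).card = Module.finrank ℝ X) (Q : α → ι → X → ℝ)
    (W N : α → ι → Set X) (hQ : ∀ v ∈ V, ∀ i ∈ T v, ContDiffOn ℝ 1 (Q v i) (N v i))
    (hW : ∀ v ∈ V, ∀ i, IsClosed (W v i)) (hN : ∀ v ∈ V, ∀ i ∈ T v, IsOpen (N v i))
    (hd : ∀ v ∈ V, ∀ i ∈ T v, ∀ u ∈ N v i, Q v i u = 0 → ∃ᶠ u' in 𝓝 u, Q v i u' = 0 ∧ u' ∉ W v i)
    (hd' : ∀ v ∈ V, ∀ i, i ∉ T v → ∀ u, ∃ᶠ u' in 𝓝 u, u' ∉ W v i)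
    (pt : α → X) (δ : ℝ) (G : Finset (α × ι)) (τ : ι → X) (x : α → X)
    (h : Config V T Q W N pt δ G τ x) (v0 : α) (hv0 : v0 ∈ V) (i0 : ι) :
    ∃ τ' x', Config V T Q W N pt δ (insert (v0, i0) G) τ' x' := by
  classical
  -- the new points
  have hψ : ∀ v, ∃ ψ : X → X, v ∈ V → Tendsto ψ (𝓝 (τ i0)) (𝓝 (x v)) ∧
      ∀ᶠ s in 𝓝 (τ i0), ∀ i ∈ T v, Q v i (ψ s - Function.update τ i0 s i) = 0 := by
    intro v
    by_cases hv : v ∈ V
    · obtain ⟨ψ, h1, h2⟩ := tr_implicit (T v) (hT v hv) (Q v) τ (x v)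
        (fun i hi => (hQ v hv i hi).contDiffAt ((hN v hv i hi).mem_nhds (h.nbd v hv i hi)))
        (h.zero v hv) (h.ind v hv) i0
      exact ⟨ψ, fun _ => ⟨h1, h2⟩⟩
    · exact ⟨fun _ => 0, fun h => absurd h hv⟩
  choose ψ hψ using hψ
  -- new points: `x v0` is kept
  let X' : X → α → X := fun s v => if v = v0 then x v0 else ψ v s
  have hX : ∀ v ∈ V, Tendsto (fun s => X' s v) (𝓝 (τ i0)) (𝓝 (x v)) := by
    intro v hv
    by_cases hvv : v = v0
    · simp only [X', hvv, if_true]; exact tendsto_const_nhds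
    · simp only [X', hvv, if_false]; exact (hψ v hv).1
  have hup : Tendsto (fun s => Function.update τ i0 s) (𝓝 (τ i0)) (𝓝 τ) := by
    have : Continuous (fun s => Function.update τ i0 s) := continuous_const.update i0 continuous_id
    have h2 := this.tendsto (τ i0)
    simpa using h2
  have hupi : ∀ i, Tendsto (fun s => Function.update τ i0 s i) (𝓝 (τ i0)) (𝓝 (τ i)) := by
    intro i
    exact ((continuous_apply i).tendsto τ).comp hup
  have hsub : ∀ v ∈ V, ∀ i, Tendsto (fun s => X' s v - Function.update τ i0 s i) (𝓝 (τ i0))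
      (𝓝 (x v - τ i)) := fun v hv i => (hX v hv).sub (hupi i)
  have e1 : ∀ᶠ s in 𝓝 (τ i0), ∀ i, ‖Function.update τ i0 s i‖ < δ := by
    rw [Filter.eventually_all]
    intro i
    exact (hupi i).norm.eventually (gt_mem_nhds (h.small i))
  have e2 : ∀ᶠ s in 𝓝 (τ i0), ∀ v ∈ V, dist (X' s v) (pt v) < δ := by
    rw [Filter.eventually_all_finset]
    intro v hv
    exact ((hX v hv).dist tendsto_const_nhds).eventually (gt_mem_nhds (h.near v hv))
  have e3 : ∀ᶠ s in 𝓝 (τ i0), ∀ v ∈ V, v ≠ v0 → ∀ i ∈ T v,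
      Q v i (X' s v - Function.update τ i0 s i) = 0 := by
    rw [Filter.eventually_all_finset]
    intro v hv
    filter_upwards [(hψ v hv).2] with s hs
    intro hne i hi
    simp only [X', hne, if_false]
    exact hs i hi
  have e4 : ∀ᶠ s in 𝓝 (τ i0), ∀ v ∈ V, Indep (T v) (Q v) (Function.update τ i0 s) (X' s v) := by
    rw [Filter.eventually_all_finset]
    intro v hv
    exact (hup.prodMk_nhds (hX v hv)).eventually
      (indep_eventually (T v) (Q v) (N v) (hN v hv) (hQ v hv) τ (x v) (h.nbd v hv) (h.ind v hv))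
  have e5 : ∀ᶠ s in 𝓝 (τ i0), ∀ v ∈ V, ∀ i ∈ T v, X' s v - Function.update τ i0 s i ∈ N v i := by
    rw [Filter.eventually_all_finset]
    intro v hv
    rw [Filter.eventually_all_finset]
    intro i hi
    exact (hsub v hv i).eventually ((hN v hv i hi).mem_nhds (h.nbd v hv i hi))
  have e6 : ∀ᶠ s in 𝓝 (τ i0), ∀ v ∈ V, ∀ i, (v, i) ∈ G →
      X' s v - Function.update τ i0 s i ∉ W v i := by
    rw [Filter.eventually_all_finset]
    intro v hv
    rw [Filter.eventually_all]
    intro i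
    by_cases hG : (v, i) ∈ G
    · have := (hsub v hv i).eventually ((hW v hv i).isOpen_compl.mem_nhds (h.off v hv i hG))
      filter_upwards [this] with s hs _ using hs
    · exact Filter.Eventually.of_forall (fun s hs => absurd hs hG)
  have hall := e1.and (e2.and (e3.and (e4.and (e5.and e6))))
  -- pull back along `u' ↦ x v0 - u'`
  have hmap : Tendsto (fun u' => x v0 - u') (𝓝 (x v0 - τ i0)) (𝓝 (τ i0)) := by
    have : Continuous (fun u' : X => x v0 - u') := continuous_const.sub continuous_id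
    have h2 := this.tendsto (x v0 - τ i0)
    simpa using h2
  have hfr : ∃ᶠ u' in 𝓝 (x v0 - τ i0), (i0 ∈ T v0 → Q v0 i0 u' = 0) ∧ u' ∉ W v0 i0 := by
    by_cases hi0 : i0 ∈ T v0
    · exact (hd v0 hv0 i0 hi0 (x v0 - τ i0) (h.nbd v0 hv0 i0 hi0) (h.zero v0 hv0 i0 hi0)).mono
        (fun u' hu' => ⟨fun _ => hu'.1, hu'.2⟩)
    · exact (hd' v0 hv0 i0 hi0 (x v0 - τ i0)).mono (fun u' hu' => ⟨fun h => absurd h hi0, hu'⟩)
  obtain ⟨u', hu', hs⟩ := (hfr.and_eventually (hmap.eventually hall)).exists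
  obtain ⟨s1, s2, s3, s4, s5, s6⟩ := hs
  refine ⟨Function.update τ i0 (x v0 - u'), X' (x v0 - u'), ?_⟩
  have hpt0 : X' (x v0 - u') v0 = x v0 := by simp [X']
  have hval : X' (x v0 - u') v0 - Function.update τ i0 (x v0 - u') i0 = u' := by
    rw [hpt0]; simp
  refine ⟨s1, s2, ?_, s4, s5, ?_⟩
  · intro v hv i hi
    by_cases hvv : v = v0
    · subst hvv
      by_cases hii : i = i0
      · subst hii
        rw [hval]; exact hu'.1 hi
      · rw [hpt0, Function.update_of_ne hii]
        exact h.zero v hv i hi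
    · exact s3 v hv hvv i hi
  · intro v hv i hG
    rcases Finset.mem_insert.1 hG with hG | hG
    · obtain ⟨rfl, rfl⟩ := Prod.mk.inj hG
      rw [hval]; exact hu'.2
    · exact s6 v hv i hG

/-- General position by small translations. -/
theorem translate_generic {α : Type} [DecidableEq α] [Fintype ι] (V : Finset α) (T : α → Finset ι)
    (hT : ∀ v ∈ V, (T v).card = Module.finrank ℝ X) (Q : α → ι → X → ℝ)
    (W N : α → ι → Set X) (hQ : ∀ v ∈ V, ∀ i ∈ T v, ContDiffOn ℝ 1 (Q v i) (N v i))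
    (hW : ∀ v ∈ V, ∀ i, IsClosed (W v i)) (hN : ∀ v ∈ V, ∀ i ∈ T v, IsOpen (N v i))
    (hd : ∀ v ∈ V, ∀ i ∈ T v, ∀ u ∈ N v i, Q v i u = 0 → ∃ᶠ u' in 𝓝 u, Q v i u' = 0 ∧ u' ∉ W v i)
    (hd' : ∀ v ∈ V, ∀ i, i ∉ T v → ∀ u, ∃ᶠ u' in 𝓝 u, u' ∉ W v i)
    (pt : α → X) (hpt : ∀ v ∈ V, ∀ i ∈ T v, pt v ∈ N v i)
    (h0 : ∀ v ∈ V, ∀ i ∈ T v, Q v i (pt v) = 0)
    (hind : ∀ v ∈ V, ∀ c : ι → ℝ, ∑ i ∈ T v, c i • fderiv ℝ (Q v i) (pt v) = 0 →
      ∀ i ∈ T v, c i = 0) (δ : ℝ) (hδ : 0 < δ) :
    ∃ (τ : ι → X) (x : α → X), (∀ i, ‖τ i‖ < δ) ∧ ∀ v ∈ V, dist (x v) (pt v) < δ ∧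
      Indep (T v) (Q v) τ (x v) ∧ (∀ i ∈ T v, Q v i (x v - τ i) = 0 ∧ x v - τ i ∈ N v i) ∧
      ∀ i, x v - τ i ∉ W v i := by
  classical
  have key : ∀ G : Finset (α × ι), (∀ p ∈ G, p.1 ∈ V) → ∃ τ x, Config V T Q W N pt δ G τ x := by
    intro G
    induction G using Finset.induction_on with
    | empty =>
      intro _
      refine ⟨0, pt, ?_, ?_, ?_, ?_, ?_, ?_⟩
      · intro i; simpa using hδ
      · intro v _; simpa using hδ
      · intro v hv i hi; simpa using h0 v hv i hi
      · intro v hv c hc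
        exact hind v hv c (by simpa using hc)
      · intro v hv i hi; simpa using hpt v hv i hi
      · intro v hv i hG; simp at hG
    | insert p G hp ih =>
      intro hG
      obtain ⟨τ, x, hc⟩ := ih (fun q hq => hG q (Finset.mem_insert_of_mem hq))
      exact config_step V T hT Q W N hQ hW hN hd hd' pt δ G τ x hc p.1
        (hG p (Finset.mem_insert_self _ _)) p.2
  obtain ⟨τ, x, hc⟩ := key (V ×ˢ Finset.univ) (fun p hp => (Finset.mem_product.1 hp).1)
  exact ⟨τ, x, hc.small, fun v hv => ⟨hc.near v hv, hc.ind v hv, fun i hi =>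
    ⟨hc.zero v hv i hi, hc.nbd v hv i hi⟩, fun i => hc.off v hv i (by simp [hv])⟩⟩

end UC2
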